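import Pool.Agent.ParisQ.Final

/-!
# Provably Delta_1 induction does not give Sigma_1 collection relative to an oracle

Every proof of `I Delta_1 => B Sigma_1` must fail to relativise, and the growth hypothesis of
Thapen's theorem is optimal for relativising proofs.
-/

namespace Pool.Agent.Results.MP_c474c3_lc.OracleSeparation

open Pool.Agent.ParisQ

/-- Let `g` be a function which is not bounded by any primitive recursive function, and let `P` be
any countable family of ternary relations on `ℕ`.  There is a relation `A ⊆ ℕ³` and a model `M` of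
`PA^-` (the non-negative part of a discretely ordered commutative ring) with relations
interpreting `exp, g, A, P` which satisfies every `Pi_1` sentence true in
`(ℕ, +, ·, <, exp, g, A, P)`, induction for provably `Delta_1` formulas of this language, and
`∀ a ∃ y ∃ z (a < g y ∧ z = a ^ y)`, but not collection for `Sigma_1` formulas. -/
theorem result (g : ℕ → ℕ) (hg : ∀ p : ℕ → ℕ, Nat.Primrec p → ∃ y, p y < g y)
    (P : ℕ → ℕ → ℕ → ℕ → Prop) :
    ∃ (A : ℕ → ℕ → ℕ → Prop) (M : Type) (_ : CommSemiring M) (_ : LinearOrder M)
      (_ : IsStrictOrderedRing M) (_ : CanonicallyOrderedAdd M) (I : Interp M),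
      (∀ m : M, 0 < m → 1 ≤ m) ∧
      (∀ φ : Fm, Pi1 φ → φ.holds (stdI g A P) [] → φ.holds I []) ∧
      DeltaOneInd I ∧
      (∀ a : M, ∃ y z : M, I 1 a y 0 ∧ I 0 a y z) ∧
      ¬ SigmaOneColl I := by
  obtain ⟨x, y, q, h1, h2, h3, h4, h5⟩ := exists_params g hg
  obtain ⟨S⟩ := exists_Stp g P h1 h2 h3 h4 h5
  exact ⟨S.A, S.MM, inferInstance, inferInstance, inferInstance, inferInstance, S.II,
    S.one_le_of_pos, S.transfer, S.deltaOneInd, S.growth, S.not_coll⟩

end Pool.Agent.Results.MP_c474c3_lc.OracleSeparation
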